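import Pool.Agent.N689.ZL.Asm3
import Pool.Agent.N689.ZL.T_CNTP

/-!
# The word problem for all Artin groups is as hard as for random Artin groups

A Coxeter matrix of rank `n` is given by the list `x` of its `n (n - 1) / 2` labels above the
diagonal (`0` stands for infinity); a random matrix has independent labels with an arbitrary
distribution `p`. Algorithms are partial recursive functions of `n`, `x` and a word.

Theorem. Either one algorithm solves the word problem for all Artin groups all of whose labels have
positive probability, or every algorithm that never gives a wrong answer fails with probability at
least `1 - exp (- c n ^ 2)` on the random Artin group of rank `n`, already on words of bounded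
length.

So the question (for all Artin groups, if all labels have positive probability) is equivalent to its
average-case version, and no method for a class of Artin groups that is not extremely thin can be
easier than a method for all Artin groups.

The proof uses the theorem of van der Lek that standard parabolic subgroups are Artin groups (proved
in `Pool.Agent.N689.ZL.Par4` with the retraction of Charney and Paris): an algorithm for the small
group runs the given algorithm on all groups that contain the small one. A matrix of rank `n` has
about `n ^ 2 / k ^ 4` principal submatrices of size `k` that have pairwise at most one index in
common, hence are independent.
-/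

set_option autoImplicit false

namespace Pool.Agent.Results.MP_a1ec0a_al.AverageCase

open Pool.Agent.N689.ZL

/-- For every distribution `p` of the labels: (1) some algorithm that never errs halts on all words
in all Artin groups whose labels have positive probability, or (2) for every algorithm that never
errs there are `l` and `c > 0` such that for all large `n` the probability that it halts on all
words of length at most `l` in the random Artin group of rank `n` is at most `exp (- c n ^ 2)`. -/
theorem result (p : PMF ℕ) :
    (∃ A : Input →. Bool, Partrec A ∧ NeverErrs A ∧
      ∀ n x, x.length = n.choose 2 → (∀ t ∈ x, p t ≠ 0) → ∀ w, (A (n, x, w)).Dom) ∨
    ∀ A : Input →. Bool, Partrec A → NeverErrs A → ∃ l : ℕ, ∃ c : ℝ, 0 < c ∧ ∃ n₀ : ℕ,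
      ∀ n ≥ n₀, prob p n {x | HaltsOnWords A l n x} ≤ Real.exp (-(c * (n : ℝ) ^ 2)) :=
  main3 t_CNTP p

end Pool.Agent.Results.MP_a1ec0a_al.AverageCase
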