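import Pool.Agent.N689.ZL.Heur
import Pool.Agent.N689.ZL.T_MAJ
import Pool.Agent.N689.ZL.T_LISTS

/-!
# The word problem for Artin groups: algorithms that err on few groups

Let `L` be a finite set of labels (`0` stands for infinity). A Coxeter matrix of rank `n` is given
by the list of its `n (n - 1) / 2` labels above the diagonal.

Theorem. One algorithm solves the word problem for all Artin groups with labels in `L` if and only if
there is an algorithm (which may err and may not halt) such that for every fixed word `w` the
proportion of the matrices of rank `n` with labels in `L` for which its answer on `w` is not right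
becomes arbitrarily small for suitable large `n`, at a computable rate.

The proof takes the majority of the answers in all Artin groups of rank `n` which contain the given
Artin group as the standard parabolic subgroup of its first `k` generators.
-/

set_option autoImplicit false

namespace Pool.Agent.Results.MP_a1ec0a_al.ErringAlgorithms

open Pool.Agent.N689.ZL

/-- Let `L` be a finite nonempty set of labels. The following are equivalent: (1) some algorithm is
right on all words of all Artin groups with labels in `L`; (2) there are an algorithm `A` and a
computable function `N` such that for every word `w` and every `m`, with `n = N (w, m) ≥ m`, the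
proportion of the matrices of rank `n` with labels in `L` for which `A` is not right on `w` is less
than `1 / m`. -/
theorem result (L : Finset ℕ) (hL : L.Nonempty) :
    (∃ B : Input →. Bool, Partrec B ∧
      ∀ n x, x.length = n.choose 2 → (∀ t ∈ x, t ∈ L) → ∀ w, Right B n x w) ↔
    ∃ (A : Input →. Bool) (N : List (ℕ × Bool) → ℕ → ℕ), Partrec A ∧ Computable₂ N ∧
      ∀ w m, m ≤ N w m ∧ m * wrong A L w (N w m) < L.card ^ ((N w m).choose 2) := by
  constructor
  · rintro ⟨B, hB, hR⟩
    refine ⟨B, fun _ m => m, hB, Computable.snd, fun w m => ⟨le_refl m, ?_⟩⟩
    have h0 : wrong B L w m = 0 := by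
      unfold wrong
      have : IsEmpty {y : Fin (m.choose 2) → L // ¬ Right B m (List.ofFn fun i => (y i : ℕ)) w} := by
        refine ⟨fun y => y.2 (hR m _ (by simp) ?_ w)⟩
        intro t ht
        obtain ⟨i, rfl⟩ := (List.mem_ofFn' _ _).1 ht
        exact (y.1 i).2
      exact Nat.card_of_isEmpty
    rw [h0, mul_zero]
    exact pow_pos (Finset.card_pos.2 hL) _
  · rintro ⟨A, N, hA, hN, h⟩
    exact heur t_MAJ t_LISTS L A hA N hN h

end Pool.Agent.Results.MP_a1ec0a_al.ErringAlgorithms
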