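import Pool.Agent.N689.ZL.Asm
import Pool.Agent.N689.ZL.T_CNTP

/-!
# Decidability of the word problem of a random Artin group: a zero-one law

A Coxeter matrix of rank `n` is given by the list `x` of its `n (n - 1) / 2` labels above the
diagonal (`0` stands for infinity); in the random Artin group of rank `n` the labels are
independent, with an arbitrary distribution `p`.

Theorem. Either the word problem is decidable in every Artin group all of whose labels have positive
probability, or the random Artin group of rank `n` has a decidable word problem with probability at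
most `exp (- c n ^ 2)` for large `n`.
-/

set_option autoImplicit false

namespace Pool.Agent.Results.MP_a1ec0a_al.ZeroOneLaw

open Pool.Agent.N689.ZL

/-- The word problem of the Artin group is decidable. -/
def DecidableWP (n : ℕ) (x : List ℕ) : Prop :=
  ComputablePred fun w : List (ℕ × Bool) => val n x w = 1

theorem of_emb {k : ℕ} {x : List ℕ} {n : ℕ} {y φ : List ℕ} (h : Emb k x n y φ)
    (hy : DecidableWP n y) : DecidableWP k x := by
  obtain ⟨f, hf, hfe⟩ := ComputablePred.computable_iff.1 hy
  have hren : Computable fun w : List (ℕ × Bool) => ren k φ w := by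
    have h1 : Computable fun w : List (ℕ × Bool) =>
        (((k, ([] : List ℕ), w), (0, ([] : List ℕ), φ)) : Input × (ℕ × List ℕ × List ℕ)) :=
      Computable.pair (Computable.pair (Computable.const k)
        (Computable.pair (Computable.const []) Computable.id)) (Computable.const _)
    exact t_EMBC.2.comp h1
  refine ComputablePred.computable_iff.2 ⟨fun w => f (ren k φ w), hf.comp hren, ?_⟩
  funext w
  have h2 := congrFun hfe (ren k φ w)
  exact (propext (par_val h w).symm).trans h2

/-- For every distribution `p` of the labels: (1) all Artin groups whose labels have positive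
probability have a decidable word problem, or (2) for some `c > 0` and all large `n` the random Artin
group of rank `n` has a decidable word problem with probability at most `exp (- c n ^ 2)`. -/
theorem result (p : PMF ℕ) :
    (∀ n x, x.length = n.choose 2 → (∀ t ∈ x, p t ≠ 0) → DecidableWP n x) ∨
    ∃ c : ℝ, 0 < c ∧ ∃ n₀ : ℕ, ∀ n ≥ n₀,
      prob p n {x | DecidableWP n x} ≤ Real.exp (-(c * (n : ℝ) ^ 2)) := by
  by_cases hall : ∀ n x, x.length = n.choose 2 → (∀ t ∈ x, p t ≠ 0) → DecidableWP n x
  · exact Or.inl hall
  right
  push Not at hall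
  obtain ⟨k, x, hx, hl, hns⟩ := hall
  obtain ⟨c, hc, n₀, hcn⟩ := t_CNTP p k x (by
    intro i hi
    rw [← hx] at hi
    rw [List.getD_eq_getElem _ _ hi]
    exact hl _ (List.getElem_mem hi))
  refine ⟨c, hc, n₀, fun n hn => hcn n hn _ ?_⟩
  intro y hy _ φ hφ
  by_contra hcon
  push Not at hcon
  apply hns
  refine of_emb (n := n) (y := y) (φ := List.ofFn fun i => (φ i : ℕ)) ⟨?_, ?_⟩ hy
  · intro i hi
    rw [List.getD_eq_getElem _ _ (by simpa using hi)]
    simp
  · intro j hj i hij
    have hi : i < k := hij.trans hj
    have e1 : (List.ofFn fun i => (φ i : ℕ)).getD i 0 = φ ⟨i, hi⟩ := by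
      rw [List.getD_eq_getElem _ _ (by simpa using hi)]
      simp
    have e2 : (List.ofFn fun i => (φ i : ℕ)).getD j 0 = φ ⟨j, hj⟩ := by
      rw [List.getD_eq_getElem _ _ (by simpa using hj)]
      simp
    rw [e1, e2]
    exact ⟨hφ (show (⟨i, hi⟩ : Fin k) < ⟨j, hj⟩ from hij), hcon ⟨i, hi⟩ ⟨j, hj⟩ hij⟩

end Pool.Agent.Results.MP_a1ec0a_al.ZeroOneLaw
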